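import Pool.Agent.H35.DF.Key
import Pool.Agent.H62.UC.Me

/-!
# In a counterexample without singletons every nonempty `S` has an index `i` whose up-closure is small
-/

set_option autoImplicit false

namespace Pool.Agent.H35.DF

open Finset Pool.Agent.H62.UC

variable {α : Type*} [DecidableEq α]

/-- The subsets of `S ∖ {i}` that do not cover `i`. -/
def nc (A : Finset (Finset α)) (S : Finset α) (i : α) : Finset (Finset α) :=
  (S.erase i).powerset.filter (fun Y => ¬ ∃ T ∈ A, i ∈ T ∧ T ⊆ insert i Y)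

theorem nu_one (A : Finset (Finset α)) (S : Finset α) (i : α) :
    nu A S (fun _ => 1) i = ((nc A S i).card : ℝ) * (1 / 2) ^ (S.erase i).card := by
  have hpr : ∀ j, pr (fun _ : α => (1 : ℝ)) i j = 1 / 2 := by
    intro j
    unfold pr
    norm_num
  have h1 : nu A S (fun _ => 1) i = ∑ Y ∈ nc A S i, pm (S.erase i) (pr (fun _ => 1) i) Y := rfl
  have h2 : ∀ Y ∈ nc A S i, pm (S.erase i) (pr (fun _ : α => (1 : ℝ)) i) Y =
      (1 / 2) ^ (S.erase i).card := by
    intro Y hY
    have hYs : Y ⊆ S.erase i := mem_powerset.1 (mem_filter.1 hY).1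
    unfold pm
    simp only [hpr]
    rw [prod_const, prod_const]
    have h3 : (1 : ℝ) - 1 / 2 = 1 / 2 := by norm_num
    rw [h3, ← pow_add, card_sdiff_of_subset hYs, Nat.add_sub_cancel' (card_le_card hYs)]
  rw [h1, sum_congr rfl h2, sum_const, nsmul_eq_mul]

theorem exists_bad {A : Finset (Finset α)} (hA : ∀ S ∈ A, ∀ T ∈ A, S ∪ T ∈ A) (h0 : ∅ ∈ A)
    {S : Finset α} (hns : ∀ i ∈ S, {i} ∉ A)
    (hfreq : ∀ i ∈ S, 2 * (A.filter (fun T => i ∈ T)).card ≤ A.card) :
    ¬ (∀ i ∈ S, 2 * (nc A S i).card ≤ 2 ^ (S.erase i).card) ∨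
      ∀ i ∈ S, 2 * (nc A S i).card = 2 ^ (S.erase i).card := by
  by_contra hcon
  rw [not_or, not_not] at hcon
  obtain ⟨hle, hne⟩ := hcon
  push Not at hne
  obtain ⟨i0, hi0, hi0ne⟩ := hne
  have hmain := main_ineq hA (S := S) (lam := fun _ => (1 : ℝ)) (fun _ _ => one_pos)
  have hl2 : 0 < Real.log 2 := Real.log_pos one_lt_two
  have hR : Real.log 2 * ∑ i ∈ S, (1 : ℝ) *
      (2 * ((A.filter (fun T => i ∈ T)).card : ℝ) - (A.card : ℝ)) ≤ 0 := by
    apply mul_nonpos_of_nonneg_of_nonpos hl2.le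
    apply sum_nonpos
    intro i hi
    have : 2 * ((A.filter (fun T => i ∈ T)).card : ℝ) ≤ (A.card : ℝ) := by
      exact_mod_cast hfreq i hi
    linarith
  have hNs : ∀ i ∈ S, (1 : ℝ) ≤ ((Ns A i).card : ℝ) := by
    intro i hiS
    have : 0 < (Ns A i).card := by
      rw [card_pos]
      refine ⟨∅, ?_⟩
      rw [mem_Ns]
      refine ⟨h0, notMem_empty i, ?_⟩
      simpa using hns i hiS
    exact_mod_cast this
  have hncpos : ∀ i ∈ S, (1 : ℝ) ≤ ((nc A S i).card : ℝ) := by
    intro i hiS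
    have : 0 < (nc A S i).card := by
      rw [card_pos]
      refine ⟨∅, ?_⟩
      unfold nc
      rw [mem_filter]
      refine ⟨empty_mem_powerset _, ?_⟩
      rintro ⟨T, hT, hiT, hTi⟩
      have : T = {i} := by
        apply Subset.antisymm
        · simpa using hTi
        · simpa using hiT
      exact hns i hiS (this ▸ hT)
    exact_mod_cast this
  have hnu : ∀ i ∈ S, 0 < nu A S (fun _ => 1) i ∧ nu A S (fun _ => 1) i ≤ 1 / 2 := by
    intro i hi
    rw [nu_one]
    have h1 : (0 : ℝ) < (1 / 2) ^ (S.erase i).card := by positivity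
    refine ⟨mul_pos (by linarith [hncpos i hi]) h1, ?_⟩
    have h2 : 2 * ((nc A S i).card : ℝ) ≤ 2 ^ (S.erase i).card := by exact_mod_cast hle i hi
    have h3 : (2 : ℝ) ^ (S.erase i).card * (1 / 2) ^ (S.erase i).card = 1 := by
      rw [← mul_pow]
      norm_num
    nlinarith
  have hterm : ∀ i ∈ S, 0 ≤ (1 : ℝ) * (((Ns A i).card : ℝ) *
      (Real.log (1 / nu A S (fun _ => 1) i) - Real.log 2)) := by
    intro i hi
    obtain ⟨h1, h2⟩ := hnu i hi
    have h3 : Real.log 2 ≤ Real.log (1 / nu A S (fun _ => 1) i) := by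
      apply Real.log_le_log two_pos
      rw [le_div_iff₀ h1]
      linarith
    have h4 := hNs i hi
    rw [one_mul]
    exact mul_nonneg (by linarith) (by linarith)
  have hstrict : 0 < (1 : ℝ) * (((Ns A i0).card : ℝ) *
      (Real.log (1 / nu A S (fun _ => 1) i0) - Real.log 2)) := by
    obtain ⟨h1, h2⟩ := hnu i0 hi0
    have h2' : nu A S (fun _ => 1) i0 < 1 / 2 := by
      refine lt_of_le_of_ne h2 ?_
      intro he
      rw [nu_one] at he
      apply hi0ne
      have h3 : (2 : ℝ) ^ (S.erase i0).card * (1 / 2) ^ (S.erase i0).card = 1 := by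
        rw [← mul_pow]
        norm_num
      have h4 : (2 : ℝ) * ((nc A S i0).card : ℝ) = 2 ^ (S.erase i0).card := by
        calc (2 : ℝ) * ((nc A S i0).card : ℝ) = 2 * ((nc A S i0).card : ℝ) *
              ((2 : ℝ) ^ (S.erase i0).card * (1 / 2) ^ (S.erase i0).card) := by rw [h3, mul_one]
          _ = 2 * (2 : ℝ) ^ (S.erase i0).card *
              (((nc A S i0).card : ℝ) * (1 / 2) ^ (S.erase i0).card) := by ring
          _ = 2 ^ (S.erase i0).card := by rw [he]; ring
      exact_mod_cast h4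
    have h3 : Real.log 2 < Real.log (1 / nu A S (fun _ => 1) i0) := by
      apply Real.log_lt_log two_pos
      rw [lt_div_iff₀ h1]
      linarith
    have h4 := hNs i0 hi0
    rw [one_mul]
    exact mul_pos (by linarith) (by linarith)
  have hpos : 0 < ∑ i ∈ S, (1 : ℝ) * (((Ns A i).card : ℝ) *
      (Real.log (1 / nu A S (fun _ => 1) i) - Real.log 2)) :=
    sum_pos' hterm ⟨i0, hi0, hstrict⟩
  linarith

end Pool.Agent.H35.DF
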