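import Pool.Agent.H35.DF.Iso

/-!
# Up-compression of a union-closed family (Reimer's intervals)

`fm l C T` is the image of the member `T` of `C` when the elements of the list `l` are added one after the
other, whenever the result is not yet a member of the current family; `fin l C` is the final family.
-/

set_option autoImplicit false

namespace Pool.Agent.H35.DF

open Finset Pool.Agent.H62.UC

variable {α : Type*} [DecidableEq α]

/-- One step: add `j` to `T` unless the result is already in `C`. -/
def step (C : Finset (Finset α)) (j : α) (T : Finset α) : Finset α :=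
  if insert j T ∈ C then T else insert j T

/-- The family after one step. -/
def fam (C : Finset (Finset α)) (j : α) : Finset (Finset α) := C.image (step C j)

/-- The final image of `T`. -/
def fm : List α → Finset (Finset α) → Finset α → Finset α
  | [], _, T => T
  | j :: l, C, T => fm l (fam C j) (step C j T)

/-- The final family. -/
def fin : List α → Finset (Finset α) → Finset (Finset α)
  | [], C => C
  | j :: l, C => fin l (fam C j)

theorem sub_step (C : Finset (Finset α)) (j : α) (T : Finset α) : T ⊆ step C j T := by
  unfold step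
  split_ifs
  · exact Subset.rfl
  · exact subset_insert j T

theorem sub_fm (l : List α) : ∀ (C : Finset (Finset α)) (T : Finset α), T ⊆ fm l C T := by
  induction l with
  | nil => intro C T; exact Subset.rfl
  | cons j l ih =>
    intro C T
    exact (sub_step C j T).trans (ih _ _)

theorem fin_eq (l : List α) : ∀ C : Finset (Finset α), fin l C = C.image (fm l C) := by
  induction l with
  | nil =>
    intro C
    show C = C.image (fun T => T)
    exact (image_id' ).symm
  | cons j l ih =>
    intro C
    show fin l (fam C j) = C.image (fun T => fm l (fam C j) (step C j T))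
    rw [ih, fam, image_image]
    rfl

theorem mem_fam {C : Finset (Finset α)} {j : α} {X : Finset α} :
    X ∈ fam C j ↔ (X ∈ C ∧ insert j X ∈ C) ∨ (j ∈ X ∧ X ∉ C ∧ X.erase j ∈ C) := by
  unfold fam
  rw [mem_image]
  constructor
  · rintro ⟨T, hT, rfl⟩
    by_cases h : insert j T ∈ C
    · left
      rw [step, if_pos h]
      exact ⟨hT, h⟩
    · right
      rw [step, if_neg h]
      refine ⟨mem_insert_self j T, h, ?_⟩
      have hj : j ∉ T := fun hj => h (by rwa [insert_eq_of_mem hj])
      rwa [erase_insert hj]
  · rintro (⟨h1, h2⟩ | ⟨h1, h2, h3⟩)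
    · exact ⟨X, h1, by rw [step, if_pos h2]⟩
    · refine ⟨X.erase j, h3, ?_⟩
      rw [step, insert_erase h1, if_neg h2]

theorem fam_pres {C D : Finset (Finset α)} (h : ∀ X ∈ C, ∀ Y ∈ D, X ∪ Y ∈ C) (j : α) :
    ∀ X ∈ fam C j, ∀ Y ∈ D, X ∪ Y ∈ fam C j := by
  intro X hX Y hY
  rw [mem_fam] at hX ⊢
  rcases hX with ⟨h1, h2⟩ | ⟨h1, h2, h3⟩
  · left
    refine ⟨h X h1 Y hY, ?_⟩
    have := h _ h2 Y hY
    rwa [insert_union] at this
  · by_cases h4 : X ∪ Y ∈ C
    · left
      refine ⟨h4, ?_⟩
      rwa [insert_eq_of_mem (mem_union_left Y h1)]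
    · right
      refine ⟨mem_union_left Y h1, h4, ?_⟩
      have h5 := h _ h3 Y hY
      have hjY : j ∉ Y := by
        intro hjY
        apply h4
        have : X.erase j ∪ Y = X ∪ Y := by
          ext a
          simp only [mem_union, mem_erase]
          constructor
          · rintro (⟨_, h⟩ | h)
            · exact Or.inl h
            · exact Or.inr h
          · rintro (h | h)
            · by_cases ha : a = j
              · exact Or.inr (ha ▸ hjY)
              · exact Or.inl ⟨ha, h⟩
            · exact Or.inr h
        rwa [this] at h5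
      rw [erase_union_distrib, erase_eq_of_notMem hjY]
      exact h5

theorem fm_inside (l : List α) : ∀ (C D : Finset (Finset α)), (∀ X ∈ C, ∀ Y ∈ D, X ∪ Y ∈ C) →
    ∀ A ∈ C, ∀ B ∈ D, B ⊆ fm l C A → B ⊆ A := by
  induction l with
  | nil => intro C D _ A _ B _ hB; exact hB
  | cons j l ih =>
    intro C D h A hA B hB hBA
    have h1 : step C j A ∈ fam C j := mem_image_of_mem _ hA
    have h2 : B ⊆ step C j A := ih (fam C j) D (fam_pres h j) _ h1 B hB hBA
    by_cases h3 : insert j A ∈ C
    · rwa [step, if_pos h3] at h2
    · rw [step, if_neg h3] at h2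
      by_cases hj : j ∈ B
      · exfalso
        apply h3
        have h4 := h A hA B hB
        have : A ∪ B = insert j A := by
          apply Subset.antisymm
          · exact union_subset (subset_insert j A) h2
          · exact insert_subset (mem_union_right A hj) subset_union_left
        rwa [this] at h4
      · intro b hb
        rcases mem_insert.1 (h2 hb) with h5 | h5
        · exact absurd (h5 ▸ hb) hj
        · exact h5

theorem fam_up_self (C : Finset (Finset α)) (j : α) : ∀ X ∈ fam C j, insert j X ∈ fam C j := by
  intro X hX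
  have hX' := hX
  rw [mem_fam] at hX
  rcases hX with ⟨h1, h2⟩ | ⟨h1, h2, h3⟩
  · rw [mem_fam]
    left
    exact ⟨h2, by rwa [insert_idem]⟩
  · rwa [insert_eq_of_mem h1]

theorem fam_up_pres {C : Finset (Finset α)} {i : α} (h : ∀ X ∈ C, insert i X ∈ C) (j : α) :
    ∀ X ∈ fam C j, insert i X ∈ fam C j := by
  intro X hX
  rw [mem_fam] at hX ⊢
  rcases hX with ⟨h1, h2⟩ | ⟨h1, h2, h3⟩
  · left
    refine ⟨h X h1, ?_⟩
    rw [insert_comm]
    exact h _ h2
  · by_cases h4 : insert i X ∈ C
    · left
      refine ⟨h4, ?_⟩
      rwa [insert_eq_of_mem (mem_insert_of_mem h1)]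
    · right
      refine ⟨mem_insert_of_mem h1, h4, ?_⟩
      by_cases hij : i = j
      · subst hij
        rw [insert_eq_of_mem h1]
        exact h3
      · rw [erase_insert_of_ne (fun e => hij e)]
        exact h _ h3

theorem fin_up_pres (l : List α) : ∀ (C : Finset (Finset α)) (i : α),
    (∀ X ∈ C, insert i X ∈ C) → ∀ X ∈ fin l C, insert i X ∈ fin l C := by
  induction l with
  | nil => intro C i h; exact h
  | cons j l ih =>
    intro C i h
    exact ih _ i (fam_up_pres h j)

theorem fin_up (l : List α) : ∀ (C : Finset (Finset α)), ∀ i ∈ l,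
    ∀ X ∈ fin l C, insert i X ∈ fin l C := by
  induction l with
  | nil => intro C i hi; exact absurd hi (List.not_mem_nil)
  | cons j l ih =>
    intro C i hi
    rcases List.mem_cons.1 hi with h | h
    · subst h
      exact fin_up_pres l _ i (fam_up_self C i)
    · exact ih _ i h

theorem fam_sub {V : Finset α} {C : Finset (Finset α)} (hC : C ⊆ V.powerset) {j : α}
    (hj : j ∈ V) : fam C j ⊆ V.powerset := by
  intro X hX
  rw [mem_fam] at hX
  rcases hX with ⟨h1, _⟩ | ⟨h1, _, h3⟩
  · exact hC h1
  · have h4 := mem_powerset.1 (hC h3)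
    rw [mem_powerset, ← insert_erase h1]
    exact insert_subset hj h4

theorem fin_sub (l : List α) : ∀ {V : Finset α} {C : Finset (Finset α)}, C ⊆ V.powerset →
    (∀ j ∈ l, j ∈ V) → fin l C ⊆ V.powerset := by
  induction l with
  | nil => intro V C hC _; exact hC
  | cons j l ih =>
    intro V C hC hl
    exact ih (fam_sub hC (hl j (List.mem_cons_self))) (fun i hi => hl i (List.mem_cons_of_mem j hi))

end Pool.Agent.H35.DF
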