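import Pool.Agent.H35.DF.Rec

/-!
# Dense union-closed families: the final theorem
-/

set_option autoImplicit false

namespace Pool.Agent.H35.DF

open Finset Pool.Agent.H62.UC

variable {α : Type*} [DecidableEq α]

theorem exc_freq {V : Finset α} {G : Finset (Finset α)} (hG : G ⊆ V.powerset) :
    exc V G = ∑ j ∈ V, (2 * ((G.filter (fun T => j ∈ T)).card : ℤ) - (G.card : ℤ)) := by
  have h1 : ∑ T ∈ G, (T.card : ℤ) = ∑ j ∈ V, ((G.filter (fun T => j ∈ T)).card : ℤ) := by
    have h2 : ∀ T ∈ G, (T.card : ℤ) = ∑ j ∈ V, (if j ∈ T then (1 : ℤ) else 0) := by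
      intro T hT
      have h3 : V.filter (fun j => j ∈ T) = T := by
        rw [filter_mem_eq_inter]
        exact inter_eq_right.2 (mem_powerset.1 (hG hT))
      rw [← sum_filter, h3, sum_const, nsmul_eq_mul, mul_one]
    rw [sum_congr rfl h2, sum_comm]
    refine sum_congr rfl fun j _ => ?_
    rw [← sum_filter, sum_const, nsmul_eq_mul, mul_one]
  unfold exc
  rw [sum_sub_distrib, sum_sub_distrib, ← mul_sum, ← mul_sum, h1, sum_const, sum_const,
    nsmul_eq_mul, nsmul_eq_mul]
  ring

theorem freq_split {A : Finset (Finset α)} {i j : α} (hij : j ≠ i) :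
    (A.filter (fun T => j ∈ T)).card = ((N0 i A).filter (fun T => j ∈ T)).card +
      ((N1 i A).filter (fun T => j ∈ T)).card := by
  rw [← card_N0_add i (A.filter (fun T => j ∈ T))]
  congr 2
  · ext T
    rw [mem_N0, mem_filter, mem_filter, mem_N0]
    tauto
  · ext T
    rw [mem_N1, mem_filter, mem_filter, mem_N1, mem_insert]
    constructor
    · rintro ⟨h1, h2, h3 | h3⟩
      · exact absurd h3 hij
      · exact ⟨⟨h1, h2⟩, h3⟩
    · rintro ⟨⟨h1, h2⟩, h3⟩
      exact ⟨h1, h2, Or.inr h3⟩

theorem CE.sum_le {A : Finset (Finset α)} {U : Finset α} (h : CE A U) (hsub : A ⊆ U.powerset)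
    (i : α) :
    exc (U.erase i) (N0 i A) + exc (U.erase i) (N1 i A) ≤ 0 := by
  rw [exc_freq (N0_sub hsub), exc_freq (N1_sub hsub), ← sum_add_distrib]
  apply sum_nonpos
  intro j hj
  have hji : j ≠ i := ne_of_mem_erase hj
  have h1 := h.fr j (mem_of_mem_erase hj)
  rw [freq_split hji, ← card_N0_add i A] at h1
  have h2 : 2 * ((((N0 i A).filter (fun T => j ∈ T)).card : ℤ) +
      (((N1 i A).filter (fun T => j ∈ T)).card : ℤ)) ≤
      ((N0 i A).card : ℤ) + (N1 i A).card := by exact_mod_cast h1
  linarith

theorem ins_U {A : Finset (Finset α)} {U : Finset α} (hsub : A ⊆ U.powerset) : ins A U = A := by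
  unfold ins
  apply filter_true_of_mem
  intro T hT
  exact mem_powerset.1 (hsub hT)

/-- A counterexample without singletons has density at most `9 / 32`. -/
theorem CE.density {A : Finset (Finset α)} {U : Finset α} (h : CE A U) (hsub : A ⊆ U.powerset)
    (hU : 3 ≤ U.card) :
    32 * A.card ≤ 9 * 2 ^ U.card := by
  rcases Nat.lt_or_ge U.card 4 with h3 | h4
  · -- three points
    have hc : U.card = 3 := by omega
    have h1 := (h.c1 3 U Subset.rfl hc le_rfl).2
    rw [ins_U hsub, exc_freq hsub, hc] at h1
    have h2 : ∑ j ∈ U, (2 * ((A.filter (fun T => j ∈ T)).card : ℤ) - (A.card : ℤ)) ≤ 0 := by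
      apply sum_nonpos
      intro j hj
      have : 2 * ((A.filter (fun T => j ∈ T)).card : ℤ) ≤ (A.card : ℤ) := by
        exact_mod_cast h.fr j hj
      linarith
    have h5 : (2 : ℤ) ^ 3 = 8 := by norm_num
    rw [h5] at h1
    rw [hc]
    have h6 : 3 * (A.card : ℤ) ≤ 8 := by linarith
    have h7 : 3 * A.card ≤ 8 := by exact_mod_cast h6
    norm_num
    omega
  · have hne : U.Nonempty := card_pos.1 (by omega)
    obtain ⟨i, hi, hbad⟩ := h.bad Subset.rfl hne
    rw [ins_U hsub] at hbad
    have hs := h.sum_le hsub i
    have hcard : (U.erase i).card + 1 = U.card := Finset.card_erase_add_one hi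
    have hk := (key (N1_sub hsub) (N1_union h.un i) hbad).1
    have h0 : N0 i A = ins A (U.erase i) := by
      rw [← N0_ins, ins_U hsub]
    have hc := card_N0_add i A
    have hc' : ((N0 i A).card : ℤ) + (N1 i A).card = A.card := by exact_mod_cast hc
    have hpow : (2 : ℤ) ^ U.card = 2 * 2 ^ (U.erase i).card := by
      rw [← hcard, pow_succ]
      ring
    rcases Nat.lt_or_ge U.card 5 with h5 | h5
    · -- four points
      have hc3 : (U.erase i).card = 3 := by omega
      have h1 := (h.c1 3 (U.erase i) (erase_subset i U) hc3 le_rfl).2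
      rw [← h0, hc3] at h1
      rw [hc3] at hk
      have h8 : (2 : ℤ) ^ 3 = 8 := by norm_num
      rw [h8] at h1 hk
      have h9 : (A.filter (fun T => i ∈ T)).card = (N1 i A).card := by
        unfold N1
        rw [card_image_of_injOn inj_erase]
      have h10 : 2 * (N1 i A).card ≤ A.card := by
        rw [← h9]
        exact h.fr i hi
      have h11 : 2 * ((N1 i A).card : ℤ) ≤ A.card := by exact_mod_cast h10
      have h12 : 5 * (A.card : ℤ) ≤ 24 := by linarith
      have h13 : 5 * A.card ≤ 24 := by exact_mod_cast h12
      have h14 : U.card = 4 := by omega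
      rw [h14]
      norm_num
      omega
    · have h1 := h.c2 (S := U.erase i) (erase_subset i U) (by omega)
      rw [← h0] at h1
      have h2 : 32 * (A.card : ℤ) ≤ 9 * 2 ^ U.card := by
        rw [hpow]
        linarith
      exact_mod_cast h2

theorem dense_aux (n : ℕ) : ∀ (A : Finset (Finset α)) (U : Finset α), U.card = n →
    (∀ S ∈ A, ∀ T ∈ A, S ∪ T ∈ A) → ∅ ∈ A → A ⊆ U.powerset → (∀ x ∈ U, ∃ T ∈ A, x ∈ T) →
    (∀ x ∈ U, ∀ y ∈ U, x ≠ y → ∃ T ∈ A, ¬ (x ∈ T ↔ y ∈ T)) → A ≠ U.powerset →
    (∀ x ∈ U, 2 * (A.filter (fun T => x ∈ T)).card ≤ A.card) →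
    32 * A.card ≤ 9 * 2 ^ U.card := by
  induction n with
  | zero =>
    intro A U hU _ h0 hsub _ _ hpow _
    exfalso
    apply hpow
    have hUe : U = ∅ := card_eq_zero.1 hU
    subst hUe
    apply Subset.antisymm hsub
    intro T hT
    rw [powerset_empty, mem_singleton] at hT
    rwa [hT]
  | succ n ih =>
    intro A U hU hA h0 hsub hcov hsep hpow hfr
    by_cases hns : ∀ i ∈ U, {i} ∉ A
    · have hCE : CE A U := ⟨hA, h0, hns, hfr⟩
      rcases Nat.lt_or_ge U.card 3 with h3 | h3
      · exfalso
        -- few points
        have htype : ∀ T ∈ A, T = ∅ ∨ T = U := by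
          intro T hT
          have h4 : T ⊆ U := mem_powerset.1 (hsub hT)
          have h5 : T.card ≠ 1 := by
            intro h5
            obtain ⟨x, hx⟩ := card_eq_one.1 h5
            exact hns x (h4 (by rw [hx]; exact mem_singleton_self x)) (hx ▸ hT)
          have h6 := card_le_card h4
          rcases Nat.lt_or_ge T.card 1 with h7 | h7
          · left
            exact card_eq_zero.1 (by omega)
          · right
            exact eq_of_subset_of_card_le h4 (by omega)
        have hcU : U.card ≠ 1 := by
          intro h1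
          obtain ⟨x, hx⟩ := card_eq_one.1 h1
          have hxU : x ∈ U := by rw [hx]; simp
          obtain ⟨T, hT, hxT⟩ := hcov x hxU
          rcases htype T hT with h4 | h4
          · rw [h4] at hxT
            exact absurd hxT (notMem_empty x)
          · exact hns x hxU (by rw [← hx, ← h4]; exact hT)
        have hc2 : U.card = 2 := by omega
        obtain ⟨x, y, hxy, hUxy⟩ := card_eq_two.1 hc2
        obtain ⟨T, hT, hT2⟩ := hsep x (by rw [hUxy]; simp) y (by rw [hUxy]; simp) hxy
        apply hT2
        rcases htype T hT with h4 | h4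
        · rw [h4]; simp
        · rw [h4, hUxy]; simp
      · exact hCE.density hsub h3
    · push Not at hns
      obtain ⟨i, _, hi⟩ := hns
      have hiU : i ∈ U := mem_powerset.1 (hsub hi) (mem_singleton_self i)
      have h01 : N0 i A ⊆ N1 i A := by
        intro T hT
        rw [mem_N0] at hT
        rw [mem_N1]
        refine ⟨hT.2, ?_⟩
        have := hA _ hi _ hT.1
        rwa [← insert_eq] at this
      have h9 : (A.filter (fun T => i ∈ T)).card = (N1 i A).card := by
        unfold N1
        rw [card_image_of_injOn inj_erase]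
      have hc := card_N0_add i A
      have h10 := hfr i hiU
      rw [h9] at h10
      have heq : N0 i A = N1 i A := eq_of_subset_of_card_le h01 (by omega)
      have hcA : A.card = 2 * (N0 i A).card := by rw [← heq] at hc; omega
      have hcard : (U.erase i).card + 1 = U.card := Finset.card_erase_add_one hiU
      have hfree : ∀ T ∈ A, T.erase i ∈ A := by
        intro T hT
        by_cases hiT : i ∈ T
        · have h11 : T.erase i ∈ N1 i A := by
            rw [mem_N1, insert_erase hiT]
            exact ⟨notMem_erase i T, hT⟩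
          rw [← heq, mem_N0] at h11
          exact h11.1
        · rwa [erase_eq_of_notMem hiT]
      have hkey := ih (N0 i A) (U.erase i) (by omega)
        (by
          intro S hS T hT
          rw [mem_N0] at *
          refine ⟨hA _ hS.1 _ hT.1, ?_⟩
          rw [mem_union, not_or]
          exact ⟨hS.2, hT.2⟩)
        (by rw [mem_N0]; exact ⟨h0, notMem_empty i⟩)
        (N0_sub hsub)
        (by
          intro x hx
          obtain ⟨T, hT, hxT⟩ := hcov x (mem_of_mem_erase hx)
          refine ⟨T.erase i, ?_, mem_erase.2 ⟨ne_of_mem_erase hx, hxT⟩⟩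
          rw [mem_N0]
          exact ⟨hfree T hT, notMem_erase i T⟩)
        (by
          intro x hx y hy hxy
          obtain ⟨T, hT, hT2⟩ := hsep x (mem_of_mem_erase hx) y (mem_of_mem_erase hy) hxy
          refine ⟨T.erase i, ?_, ?_⟩
          · rw [mem_N0]
            exact ⟨hfree T hT, notMem_erase i T⟩
          · rw [mem_erase, mem_erase]
            intro h12
            apply hT2
            constructor
            · intro h13
              exact (h12.1 ⟨ne_of_mem_erase hx, h13⟩).2
            · intro h13
              exact (h12.2 ⟨ne_of_mem_erase hy, h13⟩).2)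
        (by
          intro hp
          apply hpow
          apply Subset.antisymm hsub
          intro T hT
          have h13 : T.erase i ∈ N0 i A := by
            rw [hp, mem_powerset]
            exact erase_subset_erase i (mem_powerset.1 hT)
          by_cases hiT : i ∈ T
          · rw [heq, mem_N1] at h13
            rw [← insert_erase hiT]
            exact h13.2
          · rw [mem_N0, erase_eq_of_notMem hiT] at h13
            exact h13.1)
        (by
          intro x hx
          have h14 := hfr x (mem_of_mem_erase hx)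
          rw [freq_split (ne_of_mem_erase hx), ← heq, hcA] at h14
          omega)
      rw [hcA, ← hcard, pow_succ]
      omega

/-- Dense families. -/
theorem dense {A : Finset (Finset α)} (hA : ∀ S ∈ A, ∀ T ∈ A, S ∪ T ∈ A) (hne : A.Nonempty)
    (hsep : ∀ x ∈ A.sup id, ∀ y ∈ A.sup id, x ≠ y → ∃ T ∈ A, ¬ (x ∈ T ↔ y ∈ T))
    (hpow : A ≠ (A.sup id).powerset) (hd : 9 * 2 ^ (A.sup id).card < 32 * A.card) :
    ∃ x ∈ A.sup id, A.card < 2 * (A.filter (fun T => x ∈ T)).card := by
  by_contra hcon
  push Not at hcon
  obtain ⟨U, hU⟩ : ∃ U, U = A.sup id := ⟨_, rfl⟩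
  rw [← hU] at hsep hpow hd hcon
  have hsub : A ⊆ U.powerset := by
    intro T hT
    rw [mem_powerset, hU]
    exact le_sup (f := id) hT
  have hcov : ∀ x ∈ U, ∃ T ∈ A, x ∈ T := by
    intro x hx
    rw [hU, mem_sup] at hx
    obtain ⟨T, hT, hxT⟩ := hx
    exact ⟨T, hT, hxT⟩
  by_cases h0 : ∅ ∈ A
  · have := dense_aux U.card A U rfl hA h0 hsub hcov hsep hpow hcon
    omega
  · obtain ⟨B, hB⟩ : ∃ B, B = insert ∅ A := ⟨_, rfl⟩
    have hBc : B.card = A.card + 1 := by
      rw [hB, card_insert_of_notMem h0]
    have hBf : ∀ x, (B.filter (fun T => x ∈ T)).card = (A.filter (fun T => x ∈ T)).card := by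
      intro x
      rw [hB, filter_insert, if_neg (notMem_empty x)]
    have hUne : U.Nonempty := by
      obtain ⟨T, hT⟩ := hne
      have hTne : T.Nonempty := by
        rw [nonempty_iff_ne_empty]
        rintro rfl
        exact h0 hT
      obtain ⟨x, hx⟩ := hTne
      exact ⟨x, mem_powerset.1 (hsub hT) hx⟩
    have := dense_aux U.card B U rfl
      (by
        intro S hS T hT
        rw [hB, mem_insert] at hS hT ⊢
        rcases hS with rfl | hS
        · rw [empty_union]; exact hT
        · rcases hT with rfl | hT
          · rw [union_empty]; exact Or.inr hS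
          · exact Or.inr (hA _ hS _ hT))
      (by rw [hB]; exact mem_insert_self _ _)
      (by
        rw [hB]
        exact insert_subset (empty_mem_powerset U) hsub)
      (by
        intro x hx
        obtain ⟨T, hT, hxT⟩ := hcov x hx
        exact ⟨T, by rw [hB]; exact mem_insert_of_mem hT, hxT⟩)
      (by
        intro x hx y hy hxy
        obtain ⟨T, hT, hT2⟩ := hsep x hx y hy hxy
        exact ⟨T, by rw [hB]; exact mem_insert_of_mem hT, hT2⟩)
      (by
        intro hp
        obtain ⟨x, hx⟩ := hUne
        have h1 := hcon x hx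
        rw [← hBf x, hp] at h1
        have h2 : (U.powerset.filter (fun T => x ∈ T)).card = 2 ^ (U.erase x).card := by
          rw [← card_powerset]
          have h3 := card_N0_add x U.powerset
          have h4 : N0 x U.powerset = (U.erase x).powerset := by
            ext T
            rw [mem_N0, mem_powerset, mem_powerset, subset_erase]
          have h5 : N1 x U.powerset = (U.erase x).powerset := by
            ext T
            rw [mem_N1, mem_powerset, mem_powerset, subset_erase]
            constructor
            · rintro ⟨h6, h7⟩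
              exact ⟨(subset_insert x T).trans h7, h6⟩
            · rintro ⟨h6, h7⟩
              exact ⟨h7, insert_subset hx h6⟩
          have h9 : (U.powerset.filter (fun T => x ∈ T)).card = (N1 x U.powerset).card := by
            unfold N1
            rw [card_image_of_injOn inj_erase]
          rw [h9, h5]
        have h6 : (U.erase x).card + 1 = U.card := Finset.card_erase_add_one hx
        have h7 : B.card = 2 ^ U.card := by rw [hp, card_powerset]
        rw [h2] at h1
        rw [← h6, pow_succ] at h7
        omega)
      (by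
        intro x hx
        rw [hBf x, hBc]
        have := hcon x hx
        omega)
    omega

theorem few {A : Finset (Finset α)} {S : Finset α} (hns : ∀ i ∈ S, {i} ∉ A) (h3 : S.card < 3)
    (hne : S.Nonempty) : 2 * (ins A S).card ≤ 2 ^ S.card := by
  have htype : ∀ T ∈ ins A S, T = ∅ ∨ T = S := by
    intro T hT
    unfold ins at hT
    rw [mem_filter] at hT
    obtain ⟨hTA, h4⟩ := hT
    have h5 : T.card ≠ 1 := by
      intro h5
      obtain ⟨x, hx⟩ := card_eq_one.1 h5
      exact hns x (h4 (by rw [hx]; exact mem_singleton_self x)) (hx ▸ hTA)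
    have h6 := card_le_card h4
    rcases Nat.lt_or_ge T.card 1 with h7 | h7
    · left
      exact card_eq_zero.1 (by omega)
    · right
      exact eq_of_subset_of_card_le h4 (by omega)
  have hpos := card_pos.2 hne
  rcases Nat.lt_or_ge S.card 2 with h4 | h4
  · have hc1 : S.card = 1 := by omega
    have h5 : ins A S ⊆ {∅} := by
      intro T hT
      rw [mem_singleton]
      rcases htype T hT with h6 | h6
      · exact h6
      · exfalso
        obtain ⟨x, hx⟩ := card_eq_one.1 hc1
        unfold ins at hT
        rw [mem_filter] at hT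
        exact hns x (by rw [hx]; exact mem_singleton_self x) (by rw [← hx, ← h6]; exact hT.1)
    have h6 := card_le_card h5
    rw [card_singleton] at h6
    rw [hc1]
    omega
  · have hc2 : S.card = 2 := by omega
    have h5 : ins A S ⊆ {∅, S} := by
      intro T hT
      rw [mem_insert, mem_singleton]
      exact htype T hT
    have h6 := (card_le_card h5).trans card_le_two
    rw [hc2]
    omega

/-- If more than half of the subsets of `S` belong to `A` and none of them is a singleton, then
some element of `S` lies in more than half of the members of `A`. -/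
theorem local_strict {A : Finset (Finset α)} (hA : ∀ S ∈ A, ∀ T ∈ A, S ∪ T ∈ A) {S : Finset α}
    (hne : S.Nonempty) (hns : ∀ i ∈ S, {i} ∉ A)
    (hd : 2 ^ S.card < 2 * (A.filter (fun T => T ⊆ S)).card) :
    ∃ x ∈ S, A.card < 2 * (A.filter (fun T => x ∈ T)).card := by
  by_contra hcon
  push Not at hcon
  have main : ∀ B : Finset (Finset α), (∀ S ∈ B, ∀ T ∈ B, S ∪ T ∈ B) → ∅ ∈ B →
      (∀ i ∈ S, {i} ∉ B) → (∀ i ∈ S, 2 * (B.filter (fun T => i ∈ T)).card ≤ B.card) →
      2 * (ins B S).card ≤ 2 ^ S.card := by
    intro B h1 h2 h3 h4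
    rcases Nat.lt_or_ge S.card 3 with h5 | h5
    · exact few h3 h5 hne
    · have hCE : CE B S := ⟨h1, h2, h3, h4⟩
      exact_mod_cast (hCE.c1 _ S Subset.rfl rfl h5).1
  by_cases h0 : ∅ ∈ A
  · have := main A hA h0 hns hcon
    unfold ins at this
    omega
  · have h1 := main (insert ∅ A)
      (by
        intro S hS T hT
        rw [mem_insert] at hS hT ⊢
        rcases hS with rfl | hS
        · rw [empty_union]; exact hT
        · rcases hT with rfl | hT
          · rw [union_empty]; exact Or.inr hS
          · exact Or.inr (hA _ hS _ hT))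
      (mem_insert_self _ _)
      (by
        intro i hi
        rw [mem_insert, not_or]
        exact ⟨singleton_ne_empty i, hns i hi⟩)
      (by
        intro i hi
        rw [filter_insert, if_neg (notMem_empty i), card_insert_of_notMem h0]
        have := hcon i hi
        omega)
    have h2 : (A.filter (fun T => T ⊆ S)).card ≤ (ins (insert ∅ A) S).card := by
      apply card_le_card
      unfold ins
      exact filter_subset_filter _ (subset_insert _ _)
    omega

/-- A singleton is an element of at least half of the members. -/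
theorem freq_singleton {A : Finset (Finset α)} (hA : ∀ S ∈ A, ∀ T ∈ A, S ∪ T ∈ A) {i : α}
    (hi : {i} ∈ A) : A.card ≤ 2 * (A.filter (fun T => i ∈ T)).card := by
  have h01 : N0 i A ⊆ N1 i A := by
    intro T hT
    rw [mem_N0] at hT
    rw [mem_N1]
    refine ⟨hT.2, ?_⟩
    have := hA _ hi _ hT.1
    rwa [← insert_eq] at this
  have h9 : (A.filter (fun T => i ∈ T)).card = (N1 i A).card := by
    unfold N1
    rw [card_image_of_injOn inj_erase]
  have hc := card_N0_add i A
  have h10 := card_le_card h01
  omega

/-- If more than half of the subsets of `S` belong to `A`, then some element of `S` lies in at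
least half of the members of `A`. -/
theorem local_dense {A : Finset (Finset α)} (hA : ∀ S ∈ A, ∀ T ∈ A, S ∪ T ∈ A) {S : Finset α}
    (hne : S.Nonempty) (hd : 2 ^ S.card < 2 * (A.filter (fun T => T ⊆ S)).card) :
    ∃ x ∈ S, A.card ≤ 2 * (A.filter (fun T => x ∈ T)).card := by
  by_cases hns : ∀ i ∈ S, {i} ∉ A
  · obtain ⟨x, hx, h⟩ := local_strict hA hne hns hd
    exact ⟨x, hx, h.le⟩
  · push Not at hns
    obtain ⟨i, hiS, hi⟩ := hns
    exact ⟨i, hiS, freq_singleton hA hi⟩

/-- The union-closed conjecture for families of density above `9 / 32`. -/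
theorem frankl_dense {A : Finset (Finset α)} (hA : ∀ S ∈ A, ∀ T ∈ A, S ∪ T ∈ A)
    (hne : (A.sup id).Nonempty) (hd : 9 * 2 ^ (A.sup id).card < 32 * A.card) :
    ∃ x ∈ A.sup id, A.card ≤ 2 * (A.filter (fun T => x ∈ T)).card := by
  by_contra hcon
  push Not at hcon
  obtain ⟨U, hU⟩ : ∃ U, U = A.sup id := ⟨_, rfl⟩
  rw [← hU] at hne hd hcon
  have hsub : A ⊆ U.powerset := by
    intro T hT
    rw [mem_powerset, hU]
    exact le_sup (f := id) hT
  have hns : ∀ i ∈ U, {i} ∉ A := by
    intro i hi hiA
    have h1 := freq_singleton hA hiA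
    have h2 := hcon i hi
    omega
  rcases Nat.lt_or_ge U.card 3 with h3 | h3
  · have h4 := few hns h3 hne
    rw [ins_U hsub] at h4
    obtain ⟨x, hx⟩ := hne
    have h5 := hcon x hx
    have hx' := hx
    rw [hU, mem_sup] at hx'
    obtain ⟨T, hT, hxT⟩ := hx'
    have h6 : 0 < (A.filter (fun T => x ∈ T)).card :=
      card_pos.2 ⟨T, mem_filter.2 ⟨hT, hxT⟩⟩
    have h7 : 2 ^ U.card ≤ 4 := by
      calc 2 ^ U.card ≤ 2 ^ 2 := Nat.pow_le_pow_right (by norm_num) (by omega)
        _ = 4 := by norm_num
    omega
  · by_cases h0 : ∅ ∈ A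
    · have hCE : CE A U := ⟨hA, h0, hns, fun i hi => (hcon i hi).le⟩
      have := hCE.density hsub h3
      omega
    · have hCE : CE (insert ∅ A) U := by
        refine ⟨?_, mem_insert_self _ _, ?_, ?_⟩
        · intro S hS T hT
          rw [mem_insert] at hS hT ⊢
          rcases hS with rfl | hS
          · rw [empty_union]; exact hT
          · rcases hT with rfl | hT
            · rw [union_empty]; exact Or.inr hS
            · exact Or.inr (hA _ hS _ hT)
        · intro i hi
          rw [mem_insert, not_or]
          exact ⟨singleton_ne_empty i, hns i hi⟩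
        · intro i hi
          rw [filter_insert, if_neg (notMem_empty i), card_insert_of_notMem h0]
          have := hcon i hi
          omega
      have h4 := hCE.density (insert_subset (empty_mem_powerset U) hsub) h3
      rw [card_insert_of_notMem h0] at h4
      omega

end Pool.Agent.H35.DF
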