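import Pool.Agent.H62.UT.Defs

/-!
# Dense union-closed families: the edge isoperimetric inequality for up-sets (integer form)

`exc V G = ∑_{T ∈ G} (2 |T| - |V|)`.  For a nonempty up-set `G` of subsets of `V` there is `k ≤ |V|` with
`exc V G ≥ (k - 1) |G| + 2 ^ (|V| - k)`; this is the piecewise linear form of
`exc V G ≥ |G| log₂ (2 ^ |V| / |G|)`.
-/

set_option autoImplicit false

namespace Pool.Agent.H35.DF

open Finset Pool.Agent.H62.UC

variable {α : Type*} [DecidableEq α]

/-- The excess `∑_{T ∈ G} (2 |T| - |V|)`. -/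
def exc (V : Finset α) (G : Finset (Finset α)) : ℤ :=
  ∑ T ∈ G, (2 * (T.card : ℤ) - (V.card : ℤ))

theorem sumZ_split (k : α) (N : Finset (Finset α)) (f : Finset α → ℤ) :
    ∑ w ∈ N, f w = ∑ w ∈ N0 k N, f w + ∑ y ∈ N1 k N, f (insert k y) := by
  rw [N0, N1, sum_image inj_erase, add_comm,
    ← sum_filter_add_sum_filter_not N (fun w => k ∈ w)]
  congr 1
  refine sum_congr rfl fun x hx => ?_
  rw [insert_erase (mem_filter.mp hx).2]

theorem exc_split {V : Finset α} {k : α} (hk : k ∈ V) (G : Finset (Finset α)) :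
    exc V G = exc (V.erase k) (N0 k G) - (N0 k G).card +
      (exc (V.erase k) (N1 k G) + (N1 k G).card) := by
  unfold exc
  rw [sumZ_split k G]
  have hc : ((V.erase k).card : ℤ) = (V.card : ℤ) - 1 := by
    have := Finset.card_erase_add_one hk
    omega
  congr 1
  · have : ∀ T ∈ N0 k G, 2 * (T.card : ℤ) - (V.card : ℤ) =
        (2 * (T.card : ℤ) - ((V.erase k).card : ℤ)) - 1 := by
      intro T _
      rw [hc]
      ring
    rw [sum_congr rfl this, sum_sub_distrib, sum_const, nsmul_eq_mul, mul_one]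
  · have : ∀ T ∈ N1 k G, 2 * ((insert k T).card : ℤ) - (V.card : ℤ) =
        (2 * (T.card : ℤ) - ((V.erase k).card : ℤ)) + 1 := by
      intro T hT
      rw [hc, card_insert_of_notMem (mem_N1.mp hT).1]
      push_cast
      ring
    rw [sum_congr rfl this, sum_add_distrib, sum_const, nsmul_eq_mul, mul_one]

/-- `G` is closed under adding elements of `V`. -/
def IsUp (V : Finset α) (G : Finset (Finset α)) : Prop :=
  ∀ X ∈ G, ∀ j ∈ V, insert j X ∈ G

private theorem arith {g0 g1 p0 p1 E : ℤ} {k0 k1 : ℕ} {v : ℕ} (h01 : g0 ≤ g1) (hg0 : 0 < g0)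
    (hk0 : k0 ≤ v) (hk1 : k1 ≤ v) (hp0 : p0 = 2 ^ (v - k0)) (hp1 : p1 = 2 ^ (v - k1))
    (hE : ((k0 : ℤ) - 2) * g0 + k1 * g1 + p0 + p1 ≤ E) :
    ∃ k : ℕ, k ≤ v + 1 ∧ ((k : ℤ) - 1) * (g0 + g1) + 2 ^ (v + 1 - k) ≤ E := by
  have hp0' : 0 < p0 := by rw [hp0]; positivity
  rcases lt_trichotomy k0 k1 with h | h | h
  · -- k0 < k1
    by_cases hc : 0 ≤ g1 - ((k1 : ℤ) - k0 + 1) * g0 + (p0 - p1)
    · refine ⟨k1, by omega, ?_⟩
      have h2 : (2 : ℤ) ^ (v + 1 - k1) = 2 * p1 := by
        rw [hp1, show v + 1 - k1 = (v - k1) + 1 by omega, pow_succ]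
        ring
      rw [h2]
      nlinarith
    · refine ⟨k0, by omega, ?_⟩
      have h2 : (2 : ℤ) ^ (v + 1 - k0) = 2 * p0 := by
        rw [hp0, show v + 1 - k0 = (v - k0) + 1 by omega, pow_succ]
        ring
      rw [h2]
      have h3 : (0 : ℤ) ≤ (k1 : ℤ) - k0 := by
        have : (k0 : ℤ) < k1 := by exact_mod_cast h
        linarith
      have h4 : 0 ≤ ((k1 : ℤ) - k0) * (g1 - g0) := mul_nonneg h3 (by linarith)
      nlinarith
  · subst h
    refine ⟨k0, by omega, ?_⟩
    have h2 : (2 : ℤ) ^ (v + 1 - k0) = p0 + p1 := by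
      rw [hp0, hp1, show v + 1 - k0 = (v - k0) + 1 by omega, pow_succ]
      ring
    rw [h2]
    nlinarith
  · -- k1 < k0
    by_cases h2 : k1 + 2 ≤ k0
    · refine ⟨k1 + 1, by omega, ?_⟩
      have h3 : (2 : ℤ) ^ (v + 1 - (k1 + 1)) = p1 := by
        rw [hp1, show v + 1 - (k1 + 1) = v - k1 by omega]
      rw [h3]
      have h4 : (k1 : ℤ) + 2 ≤ k0 := by exact_mod_cast h2
      have h5 : 0 ≤ ((k0 : ℤ) - k1 - 2) * g0 := mul_nonneg (by linarith) hg0.le
      push_cast
      nlinarith
    · have h3 : k0 = k1 + 1 := by omega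
      have h4 : p1 = 2 * p0 := by
        rw [hp0, hp1, h3, show v - k1 = (v - (k1 + 1)) + 1 by omega, pow_succ]
        ring
      by_cases h5 : g0 ≤ p0
      · refine ⟨k1 + 1, by omega, ?_⟩
        have h6 : (2 : ℤ) ^ (v + 1 - (k1 + 1)) = p1 := by
          rw [hp1, show v + 1 - (k1 + 1) = v - k1 by omega]
        rw [h6]
        rw [h3] at hE
        push_cast at hE ⊢
        nlinarith
      · refine ⟨k1, by omega, ?_⟩
        have h6 : (2 : ℤ) ^ (v + 1 - k1) = 2 * p1 := by
          rw [hp1, show v + 1 - k1 = (v - k1) + 1 by omega, pow_succ]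
          ring
        rw [h6]
        rw [h3] at hE
        push_cast at hE ⊢
        nlinarith

theorem iso (V : Finset α) : ∀ G : Finset (Finset α), G ⊆ V.powerset → G.Nonempty → IsUp V G →
    ∃ k : ℕ, k ≤ V.card ∧ ((k : ℤ) - 1) * (G.card : ℤ) + 2 ^ (V.card - k) ≤ exc V G := by
  induction V using Finset.induction_on with
  | empty =>
    intro G hG hne _
    have h1 : G = {∅} := by
      apply Finset.Subset.antisymm
      · intro X hX
        have := mem_powerset.mp (hG hX)
        rw [subset_empty] at this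
        simp [this]
      · obtain ⟨X, hX⟩ := hne
        have := mem_powerset.mp (hG hX)
        rw [subset_empty] at this
        rw [this] at hX
        simpa using hX
    refine ⟨0, le_rfl, ?_⟩
    rw [h1]
    simp [exc]
  | insert a V ha ih =>
    intro G hG hne hup
    have haV : a ∈ insert a V := mem_insert_self a V
    have hV : (insert a V).erase a = V := erase_insert ha
    have hcard : (insert a V).card = V.card + 1 := card_insert_of_notMem ha
    have h0 : N0 a G ⊆ V.powerset := by
      have := N0_sub (k := a) hG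
      rwa [hV] at this
    have h1 : N1 a G ⊆ V.powerset := by
      have := N1_sub (k := a) hG
      rwa [hV] at this
    have hup0 : IsUp V (N0 a G) := by
      intro X hX j hj
      rw [mem_N0] at hX ⊢
      refine ⟨hup X hX.1 j (mem_insert_of_mem hj), ?_⟩
      rw [mem_insert, not_or]
      exact ⟨fun h => ha (h ▸ hj), hX.2⟩
    have hup1 : IsUp V (N1 a G) := by
      intro X hX j hj
      rw [mem_N1] at hX ⊢
      refine ⟨?_, ?_⟩
      · rw [mem_insert, not_or]
        exact ⟨fun h => ha (h ▸ hj), hX.1⟩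
      · have := hup _ hX.2 j (mem_insert_of_mem hj)
        rwa [insert_comm] at this
    have h01 : N0 a G ⊆ N1 a G := by
      intro X hX
      rw [mem_N0] at hX
      rw [mem_N1]
      exact ⟨hX.2, hup X hX.1 a haV⟩
    have hsum : (G.card : ℤ) = (N0 a G).card + (N1 a G).card := by
      have := card_N0_add a G
      omega
    have hspl := exc_split haV G
    rw [hV] at hspl
    rcases (N0 a G).eq_empty_or_nonempty with he | hne0
    · have hne1 : (N1 a G).Nonempty := by
        rw [← card_pos]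
        have hGp : 0 < G.card := card_pos.2 hne
        rw [he] at hsum
        simp only [card_empty] at hsum
        omega
      obtain ⟨k, hk, hk2⟩ := ih _ h1 hne1 hup1
      refine ⟨k + 1, by omega, ?_⟩
      rw [he] at hsum hspl
      have he2 : exc V (∅ : Finset (Finset α)) = 0 := by simp [exc]
      rw [he2] at hspl
      simp only [card_empty] at hsum hspl
      rw [hcard, show V.card + 1 - (k + 1) = V.card - k by omega, hspl]
      have : (G.card : ℤ) = (N1 a G).card := by rw [hsum]; simp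
      rw [this]
      push_cast
      nlinarith
    · have hne1 : (N1 a G).Nonempty := hne0.mono h01
      obtain ⟨k0, hk0, hk02⟩ := ih _ h0 hne0 hup0
      obtain ⟨k1, hk1, hk12⟩ := ih _ h1 hne1 hup1
      have hle : ((N0 a G).card : ℤ) ≤ (N1 a G).card := by exact_mod_cast card_le_card h01
      have hpos : (0 : ℤ) < (N0 a G).card := by exact_mod_cast card_pos.2 hne0
      obtain ⟨k, hk, hk2⟩ := arith (E := exc (insert a V) G) hle hpos hk0 hk1 rfl rfl
        (by rw [hspl]; nlinarith)
      refine ⟨k, by omega, ?_⟩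
      rw [hcard, hsum]
      exact hk2

end Pool.Agent.H35.DF
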