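import Pool.Agent.H35.DF.Comp

/-!
# The key inequality for a union-closed family whose up-closure has density at most `1/2`
-/

set_option autoImplicit false

namespace Pool.Agent.H35.DF

open Finset Pool.Agent.H62.UC

variable {α : Type*} [DecidableEq α]

/-- The up-closure of `F` in the subsets of `V`. -/
def upc (V : Finset α) (F : Finset (Finset α)) : Finset (Finset α) :=
  V.powerset.filter (fun Y => ∃ T ∈ F, T ⊆ Y)

private theorem two_pow_ge (x : ℕ) : (x : ℤ) ≤ 2 ^ x - 1 ∧ 2 * (x : ℤ) ≤ 2 ^ x ∧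
    4 * (x : ℤ) ≤ 2 ^ x + 4 := by
  have h : ∀ x : ℕ, (x : ℤ) ≤ 2 ^ x - 1 ∧ 2 * (x : ℤ) ≤ 2 ^ x ∧ 4 * (x : ℤ) ≤ 2 ^ x + 4 := by
    intro x
    induction x with
    | zero => norm_num
    | succ n ih =>
      obtain ⟨h1, h2, h3⟩ := ih
      rw [pow_succ]
      push_cast
      rcases Nat.lt_or_ge n 3 with h4 | h4
      · interval_cases n <;> norm_num
      · have h5 : (3 : ℤ) ≤ n := by exact_mod_cast h4
        refine ⟨by linarith, by linarith, by linarith⟩
  exact h x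

/-- The compressed family. -/
theorem exists_comp {V : Finset α} {F : Finset (Finset α)} (hF : F ⊆ V.powerset)
    (hun : ∀ S ∈ F, ∀ T ∈ F, S ∪ T ∈ F) :
    ∃ f : Finset α → Finset α, (∀ T ∈ F, T ⊆ f T) ∧ (∀ T ∈ F, f T ⊆ V) ∧
      Set.InjOn f F ∧ IsUp V (F.image f) ∧
      ∑ T ∈ F, 2 ^ ((f T).card - T.card) ≤ (upc V F).card := by
  refine ⟨fm V.toList F, fun T _ => sub_fm _ _ _, ?_, ?_, ?_, ?_⟩
  · intro T hT
    have h1 : fm V.toList F T ∈ fin V.toList F := by
      rw [fin_eq]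
      exact mem_image_of_mem _ hT
    exact mem_powerset.1 (fin_sub V.toList hF (fun j hj => by simpa using hj) h1)
  · intro A hA B hB hAB
    have h1 : B ⊆ A := fm_inside V.toList F F hun A hA B hB (by rw [hAB]; exact sub_fm _ _ _)
    have h2 : A ⊆ B := fm_inside V.toList F F hun B hB A hA (by rw [← hAB]; exact sub_fm _ _ _)
    exact Subset.antisymm h2 h1
  · rw [← fin_eq]
    intro X hX j hj
    exact fin_up V.toList F j (by simpa using hj) X hX
  · have hcard : ∀ T ∈ F, (Finset.Icc T (fm V.toList F T)).card =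
        2 ^ ((fm V.toList F T).card - T.card) := by
      intro T _
      exact Finset.card_Icc_finset (sub_fm _ _ _)
    rw [← sum_congr rfl hcard, ← card_biUnion]
    · apply card_le_card
      intro X hX
      rw [mem_biUnion] at hX
      obtain ⟨T, hT, hX⟩ := hX
      rw [mem_Icc] at hX
      unfold upc
      rw [mem_filter, mem_powerset]
      refine ⟨?_, T, hT, hX.1⟩
      have h1 : fm V.toList F T ∈ fin V.toList F := by
        rw [fin_eq]
        exact mem_image_of_mem _ hT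
      exact (show X ⊆ fm V.toList F T from hX.2).trans
        (mem_powerset.1 (fin_sub V.toList hF (fun j hj => by simpa using hj) h1))
    · intro A hA B hB hAB
      rw [Function.onFun, disjoint_left]
      intro X hXA hXB
      rw [mem_Icc] at hXA hXB
      apply hAB
      have h1 : B ⊆ A := fm_inside V.toList F F hun A hA B hB
        ((show B ⊆ X from hXB.1).trans hXA.2)
      have h2 : A ⊆ B := fm_inside V.toList F F hun B hB A hA
        ((show A ⊆ X from hXA.1).trans hXB.2)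
      exact Subset.antisymm h2 h1

private theorem iso_forms {g N E : ℤ} {v : ℕ} (hN : N = 2 ^ v) (hg : 0 < g)
    (h : ∃ k : ℕ, k ≤ v ∧ ((k : ℤ) - 1) * g + 2 ^ (v - k) ≤ E) :
    (N ≤ 4 * g → 2 * g ≤ N → N ≤ 2 * E) ∧ (4 * g ≤ N → 2 * g ≤ E) ∧
      (N ≤ 8 * g → 4 * g ≤ N → 4 * g + N ≤ 4 * E) ∧ (8 * g ≤ N → 3 * g ≤ E) := by
  obtain ⟨k, hk, h⟩ := h
  have hP : (2 : ℤ) ^ k * 2 ^ (v - k) = N := by
    rw [hN, ← pow_add]
    congr 1
    omega
  have hpos : (0 : ℤ) < 2 ^ (v - k) := by positivity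
  rcases Nat.lt_or_ge k 4 with hk4 | hk4
  · interval_cases k
    · norm_num at hP h
      refine ⟨?_, ?_, ?_, ?_⟩ <;> intros <;> linarith
    · norm_num at hP h
      refine ⟨?_, ?_, ?_, ?_⟩ <;> intros <;> linarith
    · norm_num at hP h
      refine ⟨?_, ?_, ?_, ?_⟩ <;> intros <;> linarith
    · norm_num at hP h
      refine ⟨?_, ?_, ?_, ?_⟩ <;> intros <;> linarith
  · have h5 : (3 : ℤ) ≤ (k : ℤ) - 1 := by
      have : (4 : ℤ) ≤ k := by exact_mod_cast hk4
      linarith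
    have h6 : 3 * g ≤ ((k : ℤ) - 1) * g := by nlinarith
    refine ⟨?_, ?_, ?_, ?_⟩ <;> intros <;> linarith

theorem key {V : Finset α} {F : Finset (Finset α)} (hF : F ⊆ V.powerset)
    (hun : ∀ S ∈ F, ∀ T ∈ F, S ∪ T ∈ F) (hH : 2 * (upc V F).card ≤ 2 ^ V.card) :
    4 * (F.card : ℤ) - 2 ^ V.card ≤ 2 * exc V F ∧
      4 * (F.card : ℤ) - 2 ^ V.card ≤ 4 * exc V F := by
  rcases F.eq_empty_or_nonempty with he | hne
  · subst he
    have h1 : (0 : ℤ) < 2 ^ V.card := by positivity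
    have h2 : exc V (∅ : Finset (Finset α)) = 0 := by simp [exc]
    rw [h2]
    simp only [card_empty]
    constructor <;> push_cast <;> linarith
  obtain ⟨f, hf1, hf2, hf3, hf4, hf5⟩ := exists_comp hF hun
  set G := F.image f with hG
  have hGcard : G.card = F.card := card_image_of_injOn hf3
  have hGsub : G ⊆ V.powerset := by
    intro X hX
    obtain ⟨T, hT, rfl⟩ := mem_image.1 hX
    exact mem_powerset.2 (hf2 T hT)
  have hgpos : (0 : ℤ) < F.card := by exact_mod_cast card_pos.2 hne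
  obtain ⟨k, hk, hk2⟩ := iso V G hGsub (hne.image f) hf4
  rw [hGcard] at hk2
  obtain ⟨i1, i2, i3, i4⟩ := iso_forms (E := exc V G) (N := 2 ^ V.card) rfl hgpos ⟨k, hk, hk2⟩
  obtain ⟨x, hx⟩ : ∃ x : Finset α → ℕ, x = fun T => (f T).card - T.card := ⟨_, rfl⟩
  have hexc : exc V F = exc V G - 2 * ∑ T ∈ F, (x T : ℤ) := by
    unfold exc
    rw [hG, sum_image hf3, mul_sum, ← sum_sub_distrib]
    refine sum_congr rfl fun T hT => ?_
    have h1 : T.card ≤ (f T).card := card_le_card (hf1 T hT)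
    rw [hx]
    push_cast [Nat.cast_sub h1]
    ring
  have hsum : ∑ T ∈ F, (2 : ℤ) ^ (x T) ≤ (upc V F).card := by
    rw [hx]
    exact_mod_cast hf5
  have hH' : 2 * ((upc V F).card : ℤ) ≤ 2 ^ V.card := by exact_mod_cast hH
  have s1 : ∑ T ∈ F, (x T : ℤ) ≤ (upc V F).card - F.card := by
    calc ∑ T ∈ F, (x T : ℤ) ≤ ∑ T ∈ F, ((2 : ℤ) ^ (x T) - 1) :=
          sum_le_sum fun T _ => (two_pow_ge (x T)).1
      _ = ∑ T ∈ F, (2 : ℤ) ^ (x T) - F.card := by
          rw [sum_sub_distrib, sum_const, nsmul_eq_mul, mul_one]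
      _ ≤ _ := by linarith
  have s2 : 2 * ∑ T ∈ F, (x T : ℤ) ≤ (upc V F).card := by
    rw [mul_sum]
    exact (sum_le_sum fun T _ => (two_pow_ge (x T)).2.1).trans hsum
  have s3 : 4 * ∑ T ∈ F, (x T : ℤ) ≤ (upc V F).card + 4 * F.card := by
    calc 4 * ∑ T ∈ F, (x T : ℤ) ≤ ∑ T ∈ F, ((2 : ℤ) ^ (x T) + 4) := by
          rw [mul_sum]
          exact sum_le_sum fun T _ => (two_pow_ge (x T)).2.2
      _ = ∑ T ∈ F, (2 : ℤ) ^ (x T) + 4 * F.card := by
          rw [sum_add_distrib, sum_const, nsmul_eq_mul]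
          ring
      _ ≤ _ := by linarith
  have s0 : (0 : ℤ) ≤ ∑ T ∈ F, (x T : ℤ) := sum_nonneg fun T _ => Nat.cast_nonneg _
  rw [hexc]
  obtain ⟨X, hX⟩ : ∃ X : ℤ, X = ∑ T ∈ F, (x T : ℤ) := ⟨_, rfl⟩
  obtain ⟨N, hN⟩ : ∃ N : ℤ, N = 2 ^ V.card := ⟨_, rfl⟩
  rw [← hX] at s0 s1 s2 s3 ⊢
  rw [← hN] at i1 i2 i3 i4 hH' ⊢
  have hgN : 2 * (F.card : ℤ) ≤ N := by linarith
  rcases le_total N (4 * (F.card : ℤ)) with h1 | h1
  · have := i1 h1 hgN
    constructor <;> linarith
  · have j2 := i2 h1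
    rcases le_total N (8 * (F.card : ℤ)) with h2 | h2
    · have := i3 h2 h1
      constructor <;> linarith
    · have := i4 h2
      constructor <;> linarith

end Pool.Agent.H35.DF
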