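import Pool.Agent.H35.DF.Bad

/-!
# The recursion
-/

set_option autoImplicit false

namespace Pool.Agent.H35.DF

open Finset Pool.Agent.H62.UC

variable {α : Type*} [DecidableEq α]

/-- The members inside `S`. -/
def ins (A : Finset (Finset α)) (S : Finset α) : Finset (Finset α) := A.filter (fun T => T ⊆ S)

theorem ins_sub (A : Finset (Finset α)) (S : Finset α) : ins A S ⊆ S.powerset := by
  intro T hT
  exact mem_powerset.2 (mem_filter.1 hT).2

theorem N0_ins (A : Finset (Finset α)) (S : Finset α) (i : α) :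
    N0 i (ins A S) = ins A (S.erase i) := by
  ext T
  unfold ins
  rw [mem_N0, mem_filter, mem_filter, subset_erase, and_assoc]

theorem N1_union {C : Finset (Finset α)} (hC : ∀ S ∈ C, ∀ T ∈ C, S ∪ T ∈ C) (i : α) :
    ∀ S ∈ N1 i C, ∀ T ∈ N1 i C, S ∪ T ∈ N1 i C := by
  intro S hS T hT
  rw [mem_N1] at hS hT ⊢
  refine ⟨?_, ?_⟩
  · rw [mem_union, not_or]
    exact ⟨hS.1, hT.1⟩
  · have := hC _ hS.2 _ hT.2
    rwa [← insert_union_distrib] at this

theorem ins_union {A : Finset (Finset α)} (hA : ∀ S ∈ A, ∀ T ∈ A, S ∪ T ∈ A) (S : Finset α) :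
    ∀ X ∈ ins A S, ∀ Y ∈ ins A S, X ∪ Y ∈ ins A S := by
  intro X hX Y hY
  unfold ins at *
  rw [mem_filter] at *
  exact ⟨hA _ hX.1 _ hY.1, union_subset hX.2 hY.2⟩

/-- The up-closure of the link and the uncovering sets are complementary. -/
theorem upc_add_nc {A : Finset (Finset α)} {S : Finset α} {i : α} (hi : i ∈ S) :
    (upc (S.erase i) (N1 i (ins A S))).card + (nc A S i).card = 2 ^ (S.erase i).card := by
  rw [← card_powerset, ← card_filter_add_card_filter_not
    (s := (S.erase i).powerset) (fun Y => ∃ T ∈ A, i ∈ T ∧ T ⊆ insert i Y)]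
  congr 1
  unfold upc
  congr 1
  apply filter_congr
  intro Y hY
  have hYs := mem_powerset.1 hY
  constructor
  · rintro ⟨T, hT, hTY⟩
    rw [mem_N1] at hT
    unfold ins at hT
    rw [mem_filter] at hT
    exact ⟨insert i T, hT.2.1, mem_insert_self i T, insert_subset_insert i hTY⟩
  · rintro ⟨T, hT, hiT, hTY⟩
    refine ⟨T.erase i, ?_, ?_⟩
    · rw [mem_N1, insert_erase hiT]
      unfold ins
      rw [mem_filter]
      refine ⟨notMem_erase i T, hT, hTY.trans ?_⟩
      exact insert_subset hi (hYs.trans (erase_subset i S))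
    · rw [← subset_insert_iff]
      exact hTY

/-- The family `A` has no singleton inside `U` and no element of `U` lies in more than half of the
members. -/
structure CE (A : Finset (Finset α)) (U : Finset α) : Prop where
  un : ∀ S ∈ A, ∀ T ∈ A, S ∪ T ∈ A
  em : ∅ ∈ A
  ns : ∀ i ∈ U, {i} ∉ A
  fr : ∀ i ∈ U, 2 * (A.filter (fun T => i ∈ T)).card ≤ A.card

theorem CE.bad {A : Finset (Finset α)} {U : Finset α} (h : CE A U) {S : Finset α} (hS : S ⊆ U)
    (hne : S.Nonempty) :
    ∃ i ∈ S, 2 * (upc (S.erase i) (N1 i (ins A S))).card ≤ 2 ^ (S.erase i).card := by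
  have h1 := exists_bad h.un h.em (S := S) (fun i hi => h.ns i (hS hi)) (fun i hi => h.fr i (hS hi))
  have h2 : ∃ i ∈ S, 2 ^ (S.erase i).card ≤ 2 * (nc A S i).card := by
    rcases h1 with h1 | h1
    · push Not at h1
      obtain ⟨i, hi, hlt⟩ := h1
      exact ⟨i, hi, hlt.le⟩
    · obtain ⟨i, hi⟩ := hne
      exact ⟨i, hi, (h1 i hi).ge⟩
  obtain ⟨i, hi, hle⟩ := h2
  refine ⟨i, hi, ?_⟩
  have h3 := upc_add_nc (A := A) hi
  omega

private theorem nc_pair {A : Finset (Finset α)} {S : Finset α} {x y : α} (hy : y ∈ S)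
    (hxy : x ≠ y) (hP : {x, y} ∈ A) :
    2 * (nc A S x).card ≤ 2 ^ (S.erase x).card := by
  have h1 : nc A S x ⊆ ((S.erase x).erase y).powerset := by
    intro Y hY
    unfold nc at hY
    rw [mem_filter, mem_powerset] at hY
    rw [mem_powerset, subset_erase]
    refine ⟨hY.1, fun hyY => hY.2 ⟨{x, y}, hP, mem_insert_self _ _, ?_⟩⟩
    intro a ha
    rcases mem_insert.1 ha with h | h
    · rw [h]; exact mem_insert_self _ _
    · rw [mem_singleton.1 h]; exact mem_insert_of_mem hyY
  have h2 := card_le_card h1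
  rw [card_powerset] at h2
  have h3 : ((S.erase x).erase y).card + 1 = (S.erase x).card :=
    Finset.card_erase_add_one (mem_erase.2 ⟨hxy.symm, hy⟩)
  rw [← h3, pow_succ]
  omega

theorem CE.pairs {A : Finset (Finset α)} {U : Finset α} (h : CE A U) {i j k : α} (hi : i ∈ U)
    (hj : j ∈ U) (hk : k ∈ U) (hij : i ≠ j) (hik : i ≠ k) (hjk : j ≠ k) (hP : {i, j} ∈ A)
    (hQ : {i, k} ∈ A) : False := by
  obtain ⟨S, hS⟩ : ∃ S : Finset α, S = {i, j, k} := ⟨_, rfl⟩
  have hiS : i ∈ S := by rw [hS]; simp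
  have hjS : j ∈ S := by rw [hS]; simp
  have hkS : k ∈ S := by rw [hS]; simp
  have hSU : S ⊆ U := by
    rw [hS]
    intro a ha
    simp only [mem_insert, mem_singleton] at ha
    rcases ha with rfl | rfl | rfl <;> assumption
  have h1 := exists_bad h.un h.em (S := S) (fun i hi => h.ns i (hSU hi)) (fun i hi => h.fr i (hSU hi))
  have hji : {j, i} ∈ A := by rwa [pair_comm]
  have hki : {k, i} ∈ A := by rwa [pair_comm]
  have hall : ∀ x ∈ S, 2 * (nc A S x).card ≤ 2 ^ (S.erase x).card := by
    intro x hx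
    rw [hS] at hx
    simp only [mem_insert, mem_singleton] at hx
    rcases hx with rfl | rfl | rfl
    · exact nc_pair hjS hij hP
    · exact nc_pair hiS hij.symm hji
    · exact nc_pair hiS hik.symm hki
  rcases h1 with h1 | h1
  · exact h1 hall
  · have h2 := h1 i hiS
    have h3 : nc A S i ⊆ (((S.erase i).erase j).erase k).powerset := by
      intro Y hY
      unfold nc at hY
      rw [mem_filter, mem_powerset] at hY
      rw [mem_powerset, subset_erase, subset_erase]
      refine ⟨⟨hY.1, fun hyY => hY.2 ⟨{i, j}, hP, mem_insert_self _ _, ?_⟩⟩,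
        fun hyY => hY.2 ⟨{i, k}, hQ, mem_insert_self _ _, ?_⟩⟩
      · intro a ha
        rcases mem_insert.1 ha with h | h
        · rw [h]; exact mem_insert_self _ _
        · rw [mem_singleton.1 h]; exact mem_insert_of_mem hyY
      · intro a ha
        rcases mem_insert.1 ha with h | h
        · rw [h]; exact mem_insert_self _ _
        · rw [mem_singleton.1 h]; exact mem_insert_of_mem hyY
    have h4 := card_le_card h3
    rw [card_powerset] at h4
    have h5 : ((S.erase i).erase j).card + 1 = (S.erase i).card :=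
      Finset.card_erase_add_one (mem_erase.2 ⟨hij.symm, hjS⟩)
    have h6 : (((S.erase i).erase j).erase k).card + 1 = ((S.erase i).erase j).card :=
      Finset.card_erase_add_one (mem_erase.2 ⟨hjk.symm, mem_erase.2 ⟨hik.symm, hkS⟩⟩)
    rw [← h5, ← h6, pow_succ, pow_succ] at h2
    have h7 : 0 < 2 ^ (((S.erase i).erase j).erase k).card := by positivity
    omega

theorem CE.base {A : Finset (Finset α)} {U : Finset α} (h : CE A U) {S : Finset α} (hS : S ⊆ U)
    (h3 : S.card = 3) :
    2 * ((ins A S).card : ℤ) ≤ 2 ^ S.card ∧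
      3 * ((ins A S).card : ℤ) - 2 ^ S.card ≤ exc S (ins A S) := by
  have hpair : ((ins A S).filter (fun T => T.card = 2)).card ≤ 1 := by
    rw [card_le_one]
    intro P hP Q hQ
    by_contra hne
    rw [mem_filter] at hP hQ
    obtain ⟨hP1, hP2⟩ := hP
    obtain ⟨hQ1, hQ2⟩ := hQ
    unfold ins at hP1 hQ1
    rw [mem_filter] at hP1 hQ1
    have h4 : (P ∪ Q).card ≤ 3 := h3 ▸ card_le_card (union_subset hP1.2 hQ1.2)
    have h5 := card_union_add_card_inter P Q
    have h6 : 0 < (P ∩ Q).card := by omega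
    obtain ⟨i, hi⟩ := card_pos.1 h6
    rw [mem_inter] at hi
    have h7 : (P.erase i).card = 1 := by rw [card_erase_of_mem hi.1, hP2]
    have h8 : (Q.erase i).card = 1 := by rw [card_erase_of_mem hi.2, hQ2]
    obtain ⟨j, hj⟩ := card_eq_one.1 h7
    obtain ⟨k, hk⟩ := card_eq_one.1 h8
    have hPe : P = {i, j} := by rw [← insert_erase hi.1, hj]
    have hQe : Q = {i, k} := by rw [← insert_erase hi.2, hk]
    have hjP : j ∈ P.erase i := by rw [hj]; simp
    have hkQ : k ∈ Q.erase i := by rw [hk]; simp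
    rw [mem_erase] at hjP hkQ
    refine h.pairs (hS (hP1.2 hi.1)) (hS (hP1.2 hjP.2)) (hS (hQ1.2 hkQ.2)) hjP.1.symm
      hkQ.1.symm ?_ (hPe ▸ hP1.1) (hQe ▸ hQ1.1)
    rintro rfl
    exact hne (hPe.trans hQe.symm)
  have htypes : ∀ T ∈ ins A S, T = ∅ ∨ T.card = 2 ∨ T = S := by
    intro T hT
    unfold ins at hT
    rw [mem_filter] at hT
    have h4 : T.card ≤ 3 := h3 ▸ card_le_card hT.2
    have h5 : T.card ≠ 1 := by
      intro h5
      obtain ⟨x, hx⟩ := card_eq_one.1 h5
      exact h.ns x (hS (hT.2 (by rw [hx]; exact mem_singleton_self x))) (hx ▸ hT.1)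
    rcases Nat.lt_or_ge T.card 1 with h6 | h6
    · left
      exact card_eq_zero.1 (by omega)
    · rcases Nat.lt_or_ge T.card 3 with h7 | h7
      · right; left; omega
      · right; right
        exact eq_of_subset_of_card_le hT.2 (by omega)
  have hSne : S ≠ ∅ := by
    rintro rfl
    simp at h3
  have e1 : ∑ T ∈ ins A S, (if T = ∅ then (1 : ℤ) else 0) ≤ 1 := by
    rw [sum_ite_eq']
    split_ifs <;> norm_num
  have e2 : ∑ T ∈ ins A S, (if T = S then (1 : ℤ) else 0) ≤ 1 := by
    rw [sum_ite_eq']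
    split_ifs <;> norm_num
  have e3 : ∑ T ∈ ins A S, (if T.card = 2 then (1 : ℤ) else 0) ≤ 1 := by
    rw [← sum_filter, sum_const, nsmul_eq_mul, mul_one]
    exact_mod_cast hpair
  have f1 : ((ins A S).card : ℤ) ≤ 3 := by
    have : ((ins A S).card : ℤ) = ∑ T ∈ ins A S, (1 : ℤ) := by
      rw [sum_const, nsmul_eq_mul, mul_one]
    rw [this]
    calc ∑ T ∈ ins A S, (1 : ℤ) ≤ ∑ T ∈ ins A S, ((if T = ∅ then (1 : ℤ) else 0) +
          (if T = S then (1 : ℤ) else 0) + (if T.card = 2 then (1 : ℤ) else 0)) := by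
          refine sum_le_sum fun T hT => ?_
          rcases htypes T hT with h4 | h4 | h4
          · rw [if_pos h4]; split_ifs <;> norm_num
          · rw [if_pos h4]; split_ifs <;> norm_num
          · rw [if_pos h4]; split_ifs <;> norm_num
      _ ≤ 3 := by
          rw [sum_add_distrib, sum_add_distrib]
          linarith
  have f2 : ∑ T ∈ ins A S, (6 - 2 * (T.card : ℤ)) ≤ 8 := by
    calc ∑ T ∈ ins A S, (6 - 2 * (T.card : ℤ)) ≤ ∑ T ∈ ins A S,
          (6 * (if T = ∅ then (1 : ℤ) else 0) + 2 * (if T.card = 2 then (1 : ℤ) else 0)) := by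
          refine sum_le_sum fun T hT => ?_
          rcases htypes T hT with h4 | h4 | h4
          · subst h4
            simp
          · have hne : T ≠ ∅ := by rintro rfl; simp at h4
            rw [if_neg hne, if_pos h4, h4]
            norm_num
          · subst h4
            rw [if_neg hSne, h3]
            norm_num
      _ = 6 * ∑ T ∈ ins A S, (if T = ∅ then (1 : ℤ) else 0) +
          2 * ∑ T ∈ ins A S, (if T.card = 2 then (1 : ℤ) else 0) := by
          rw [sum_add_distrib, ← mul_sum, ← mul_sum]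
      _ ≤ 8 := by linarith
  rw [h3]
  refine ⟨by norm_num; linarith, ?_⟩
  unfold exc
  rw [h3]
  have : ∑ T ∈ ins A S, (2 * (T.card : ℤ) - ((3 : ℕ) : ℤ)) =
      3 * ((ins A S).card : ℤ) - ∑ T ∈ ins A S, (6 - 2 * (T.card : ℤ)) := by
    have h5 : 3 * ((ins A S).card : ℤ) = ∑ T ∈ ins A S, (3 : ℤ) := by
      rw [sum_const, nsmul_eq_mul]; ring
    rw [h5, ← sum_sub_distrib]
    refine sum_congr rfl fun T _ => ?_
    push_cast
    ring
  have h8 : (2 : ℤ) ^ 3 = 8 := by norm_num
  rw [this, h8]
  linarith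

theorem CE.c1 {A : Finset (Finset α)} {U : Finset α} (h : CE A U) :
    ∀ n : ℕ, ∀ S : Finset α, S ⊆ U → S.card = n → 3 ≤ n →
      2 * ((ins A S).card : ℤ) ≤ 2 ^ S.card ∧
      3 * ((ins A S).card : ℤ) - 2 ^ S.card ≤ exc S (ins A S) := by
  intro n
  induction n with
  | zero => intro S _ _ h3; omega
  | succ n ih =>
    intro S hS hSn h3
    rcases Nat.lt_or_ge n 3 with h4 | h4
    · exact h.base hS (by omega)
    · have hne : S.Nonempty := card_pos.1 (by omega)
      obtain ⟨i, hi, hbad⟩ := h.bad hS hne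
      have hcard : (S.erase i).card = n := by
        rw [card_erase_of_mem hi, hSn]
        rfl
      obtain ⟨ih1, ih2⟩ := ih (S.erase i) ((erase_subset i S).trans hS) hcard h4
      have hF : N1 i (ins A S) ⊆ (S.erase i).powerset := N1_sub (ins_sub A S)
      have hFH : (N1 i (ins A S)).card ≤ (upc (S.erase i) (N1 i (ins A S))).card := by
        apply card_le_card
        intro T hT
        unfold upc
        rw [mem_filter]
        exact ⟨hF hT, T, hT, Subset.rfl⟩
      have hk := (key hF (N1_union (ins_union h.un S) i) hbad).1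
      have hspl := exc_split hi (ins A S)
      rw [N0_ins] at hspl
      have hc := card_N0_add i (ins A S)
      rw [N0_ins] at hc
      have hpow : (2 : ℤ) ^ S.card = 2 * 2 ^ (S.erase i).card := by
        rw [hSn, hcard, pow_succ]
        ring
      have hbad' : 2 * ((upc (S.erase i) (N1 i (ins A S))).card : ℤ) ≤ 2 ^ (S.erase i).card := by
        exact_mod_cast hbad
      have hFH' : ((N1 i (ins A S)).card : ℤ) ≤ (upc (S.erase i) (N1 i (ins A S))).card := by
        exact_mod_cast hFH
      have hc' : ((ins A (S.erase i)).card : ℤ) + (N1 i (ins A S)).card = (ins A S).card := by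
        exact_mod_cast hc
      rw [hpow, hspl, ← hc']
      constructor
      · linarith
      · linarith

theorem CE.c2 {A : Finset (Finset α)} {U : Finset α} (h : CE A U) {S : Finset α} (hS : S ⊆ U)
    (h4 : 4 ≤ S.card) :
    16 * ((ins A S).card : ℤ) - 5 * 2 ^ S.card ≤ 8 * exc S (ins A S) := by
  have hne : S.Nonempty := card_pos.1 (by omega)
  obtain ⟨i, hi, hbad⟩ := h.bad hS hne
  have hcard : (S.erase i).card + 1 = S.card := Finset.card_erase_add_one hi
  obtain ⟨ih1, ih2⟩ := h.c1 _ (S.erase i) ((erase_subset i S).trans hS) rfl (by omega)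
  have hF : N1 i (ins A S) ⊆ (S.erase i).powerset := N1_sub (ins_sub A S)
  have hk := (key hF (N1_union (ins_union h.un S) i) hbad).2
  have hspl := exc_split hi (ins A S)
  rw [N0_ins] at hspl
  have hc := card_N0_add i (ins A S)
  rw [N0_ins] at hc
  have hpow : (2 : ℤ) ^ S.card = 2 * 2 ^ (S.erase i).card := by
    rw [← hcard, pow_succ]
    ring
  have hc' : ((ins A (S.erase i)).card : ℤ) + (N1 i (ins A S)).card = (ins A S).card := by
    exact_mod_cast hc
  rw [hpow, hspl, ← hc']
  linarith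

end Pool.Agent.H35.DF
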